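import Pool.Agent.Y942.WJ.Stm

set_option autoImplicit false

/-!
# Project WH (helper942), part REAL (helper182): permutation representations of a finite group with
the same numbers of fixed points are isomorphic over the real numbers
-/

namespace Pool.Agent.Y182.WJ

open Matrix Polynomial
open Pool.Agent.Y942.WJ

section perm

variable {X : Type} [Fintype X] [DecidableEq X]

/-- the permutation matrix -/
def M (e : Equiv.Perm X) : Matrix X X ℝ := fun x y => if x = e y then 1 else 0

theorem M_mul (e e' : Equiv.Perm X) : M (e * e') = M e * M e' := by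
  ext x z
  simp [M, Matrix.mul_apply]

theorem M_one : M (1 : Equiv.Perm X) = 1 := by
  ext x z
  simp [M, Matrix.one_apply]

theorem M_transpose (e : Equiv.Perm X) : (M e)ᵀ = M e⁻¹ := by
  ext x y
  simp only [M, Matrix.transpose_apply]
  congr 1
  apply propext
  rw [Equiv.Perm.eq_inv_iff_eq]
  exact eq_comm

theorem mul_M (P : Matrix X X ℝ) (e : Equiv.Perm X) (x y : X) : (P * M e) x y = P x (e y) := by
  simp [M, Matrix.mul_apply]

theorem M_mul_apply (P : Matrix X X ℝ) (e : Equiv.Perm X) (x y : X) :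
    (M e * P) (e x) y = P x y := by
  simp [M, Matrix.mul_apply]

theorem trace_M (e : Equiv.Perm X) : (M e).trace = (Nat.card {x : X // e x = x} : ℝ) := by
  rw [Nat.card_eq_fintype_card, Fintype.card_subtype, Matrix.trace]
  simp only [Matrix.diag, M, Finset.sum_boole, eq_comm]

end perm

section poly

variable {X : Type} [Fintype X] [DecidableEq X]

theorem aeval_commute {A B : Matrix X X ℝ} (h : A * B = B * A) (q : ℝ[X]) :
    aeval A q * B = B * aeval A q := by
  have h' : Commute A B := h
  induction q using Polynomial.induction_on' with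
  | add p q hp hq => rw [map_add, add_mul, mul_add, hp, hq]
  | monomial n a =>
    rw [aeval_monomial, mul_assoc, (h'.pow_left n).eq, ← mul_assoc, ← mul_assoc,
      Algebra.commutes a B]

theorem aeval_transpose {A : Matrix X X ℝ} (h : Aᵀ = A) (q : ℝ[X]) :
    (aeval A q)ᵀ = aeval A q := by
  induction q using Polynomial.induction_on' with
  | add p q hp hq => rw [map_add, Matrix.transpose_add, hp, hq]
  | monomial n a =>
    rw [aeval_monomial, Algebra.algebraMap_eq_smul_one, smul_mul_assoc, one_mul,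
      Matrix.transpose_smul, Matrix.transpose_pow, h]

theorem aeval_mul_of_zero {A B : Matrix X X ℝ} (h : A * B = 0) (q : ℝ[X]) :
    aeval A q * B = q.coeff 0 • B := by
  conv_lhs => rw [← Polynomial.divX_mul_X_add q]
  rw [map_add, map_mul, aeval_X, aeval_C, add_mul, mul_assoc, h, mul_zero, zero_add,
    Algebra.algebraMap_eq_smul_one, smul_mul_assoc, one_mul]

theorem aeval_mulVec_of_zero {A : Matrix X X ℝ} {v : X → ℝ} (h : A *ᵥ v = 0) (q : ℝ[X]) :
    aeval A q *ᵥ v = q.coeff 0 • v := by
  conv_lhs => rw [← Polynomial.divX_mul_X_add q]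
  rw [map_add, map_mul, aeval_X, aeval_C, Matrix.add_mulVec, ← Matrix.mulVec_mulVec, h,
    Matrix.mulVec_zero, zero_add, Algebra.algebraMap_eq_smul_one, Matrix.smul_mulVec,
    Matrix.one_mulVec]

theorem mul_zero_of_transpose_mul {C B : Matrix X X ℝ} (h : Cᵀ * C * B = 0) : C * B = 0 := by
  have := Matrix.conjTranspose_mul_self_mul_eq_zero C B
  rw [Matrix.conjTranspose_eq_transpose_of_trivial] at this
  exact this.1 h

/-- powers of a symmetric matrix have the same kernel -/
theorem sym_pow {A B : Matrix X X ℝ} (hA : Aᵀ = A) (m : ℕ) (h : A ^ m * B = 0) : A * B = 0 := by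
  induction m generalizing B with
  | zero =>
    rw [pow_zero, one_mul] at h
    rw [h, mul_zero]
  | succ m ih =>
    have h1 : A * (A * B) = 0 := by
      rw [pow_succ, mul_assoc] at h
      exact ih h
    apply mul_zero_of_transpose_mul
    rw [hA, mul_assoc, h1]

/-- a polynomial which is the projection to the kernel -/
theorem exists_poly (f : Matrix X X ℝ) : ∃ q : ℝ[X], q.coeff 0 = 1 ∧
    (fᵀ * f) * aeval (fᵀ * f) q = 0 ∧ (f * fᵀ) * aeval (f * fᵀ) q = 0 := by
  set χ := (fᵀ * f).charpoly with hχ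
  have hχ0 : χ ≠ 0 := (Matrix.charpoly_monic _).ne_zero
  obtain ⟨r, hr, hr'⟩ := Polynomial.exists_eq_pow_rootMultiplicity_mul_and_not_dvd χ hχ0 0
  rw [C_0, sub_zero] at hr hr'
  have hr0 : r.coeff 0 ≠ 0 := fun h => hr' (Polynomial.X_dvd_iff.2 h)
  set m := rootMultiplicity 0 χ with hm
  have key : ∀ A : Matrix X X ℝ, Aᵀ = A → A.charpoly = χ →
      A * aeval A (C (r.coeff 0)⁻¹ * r) = 0 := by
    intro A hA hc
    have h1 : aeval A χ = 0 := by
      rw [← hc]
      exact Matrix.aeval_self_charpoly A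
    rw [hr, map_mul, map_pow, aeval_X] at h1
    have h2 := sym_pow hA m h1
    rw [map_mul, aeval_C, ← mul_assoc, ← Algebra.commutes, mul_assoc, h2, mul_zero]
  refine ⟨C (r.coeff 0)⁻¹ * r, ?_, key _ ?_ rfl, key _ ?_ ?_⟩
  · rw [Polynomial.coeff_C_mul, inv_mul_cancel₀ hr0]
  · rw [Matrix.transpose_mul, Matrix.transpose_transpose]
  · rw [Matrix.transpose_mul, Matrix.transpose_transpose]
  · rw [hχ]
    exact Matrix.charpoly_mul_comm _ _

end poly

section main

variable {G X : Type} [Group G] [Fintype G] [Fintype X] [DecidableEq X]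

/-- intertwiners -/
def Int' (ρ σ : G →* Equiv.Perm X) (f : Matrix X X ℝ) : Prop := ∀ g, f * M (ρ g) = M (σ g) * f

theorem int_transpose {ρ σ : G →* Equiv.Perm X} {f : Matrix X X ℝ} (hf : Int' ρ σ f) :
    Int' σ ρ fᵀ := by
  intro g
  have h := congrArg Matrix.transpose (hf g⁻¹)
  rw [Matrix.transpose_mul, Matrix.transpose_mul, M_transpose, M_transpose, map_inv, map_inv,
    inv_inv, inv_inv] at h
  exact h.symm

theorem trace_eq {ρ σ : G →* Equiv.Perm X}
    (hc : ∀ g : G, Nat.card {x : X // ρ g x = x} = Nat.card {x : X // σ g x = x})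
    {f : Matrix X X ℝ} (hf : Int' ρ σ f) (g : G) (q : ℝ[X]) :
    (aeval (fᵀ * f) q * M (ρ g)).trace = (aeval (f * fᵀ) q * M (σ g)).trace := by
  induction q using Polynomial.induction_on' with
  | add p q hp hq => rw [map_add, map_add, add_mul, add_mul, Matrix.trace_add, Matrix.trace_add, hp, hq]
  | monomial n a =>
    simp only [aeval_monomial, Algebra.algebraMap_eq_smul_one, smul_mul_assoc, one_mul,
      Matrix.trace_smul]
    congr 1
    cases n with
    | zero => rw [pow_zero, pow_zero, one_mul, one_mul, trace_M, trace_M, hc g]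
    | succ k =>
      have h1 : ∀ k : ℕ, (fᵀ * f) ^ (k + 1) = fᵀ * (f * fᵀ) ^ k * f := by
        intro k
        induction k with
        | zero => rw [zero_add, pow_one, pow_zero, mul_one]
        | succ k ih =>
          rw [pow_succ, ih, pow_succ (f * fᵀ) k]
          simp only [mul_assoc]
      rw [h1, mul_assoc (fᵀ * (f * fᵀ) ^ k) f, hf g, Matrix.trace_mul_comm, pow_succ' (f * fᵀ) k]
      have h2 : M (σ g) * f * (fᵀ * (f * fᵀ) ^ k) = M (σ g) * (f * fᵀ * (f * fᵀ) ^ k) := by
        simp only [mul_assoc]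
      rw [h2, Matrix.trace_mul_comm]

/-- matrix unit -/
def EE (a b : X) : Matrix X X ℝ := fun i j => if i = a ∧ j = b then 1 else 0

theorem entry (C D : Matrix X X ℝ) (a b : X) : (C * EE a b * D) a b = C a a * D b b := by
  rw [Matrix.mul_apply, Finset.sum_eq_single b]
  · congr 1
    rw [Matrix.mul_apply, Finset.sum_eq_single a]
    · simp [EE]
    · intro i _ hi
      simp [EE, hi]
    · intro h
      exact absurd (Finset.mem_univ _) h
  · intro j _ hj
    have : (C * EE a b) a j = 0 := by
      rw [Matrix.mul_apply]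
      refine Finset.sum_eq_zero fun i _ => ?_
      simp [EE, hj]
    rw [this, zero_mul]
  · intro h
    exact absurd (Finset.mem_univ _) h

theorem main {ρ σ : G →* Equiv.Perm X}
    (hc : ∀ g : G, Nat.card {x : X // ρ g x = x} = Nat.card {x : X // σ g x = x}) :
    ∃ f : Matrix X X ℝ, f.det ≠ 0 ∧ Int' ρ σ f := by
  -- an intertwiner with the smallest kernel
  let d : Matrix X X ℝ → ℕ := fun f => Module.finrank ℝ (LinearMap.ker f.mulVecLin)
  obtain ⟨f, hf, hmin⟩ : ∃ f, Int' ρ σ f ∧ ∀ f', Int' ρ σ f' → d f ≤ d f' := by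
    have hne : (d '' {f | Int' ρ σ f}).Nonempty := ⟨d 0, 0, by
      intro g
      rw [zero_mul, mul_zero], rfl⟩
    obtain ⟨f, hf, hd⟩ := Nat.sInf_mem hne
    exact ⟨f, hf, fun f' hf' => hd.trans_le (Nat.sInf_le ⟨f', hf', rfl⟩)⟩
  obtain ⟨q, hq0, hq1, hq2⟩ := exists_poly f
  set p := aeval (fᵀ * f) q with hp
  set p' := aeval (f * fᵀ) q with hp'
  have hft := int_transpose hf
  have hfp : f * p = 0 := mul_zero_of_transpose_mul hq1
  have hfp' : fᵀ * p' = 0 := by
    apply mul_zero_of_transpose_mul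
    rw [Matrix.transpose_transpose]
    exact hq2
  have hcp : ∀ g, p * M (ρ g) = M (ρ g) * p := by
    intro g
    apply aeval_commute
    rw [mul_assoc, hf g, ← mul_assoc, hft g, mul_assoc]
  have hcp' : ∀ g, p' * M (σ g) = M (σ g) * p' := by
    intro g
    apply aeval_commute
    rw [mul_assoc, hft g, ← mul_assoc, hf g, mul_assoc]
  have hps : pᵀ = p := aeval_transpose (by rw [Matrix.transpose_mul, Matrix.transpose_transpose]) q
  have hpp : p * p = p := by
    have h1 : fᵀ * f * p = 0 := hq1
    have h2 := aeval_mul_of_zero h1 q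
    rw [hq0, one_smul] at h2
    exact h2
  -- the averages vanish
  have hB : ∀ B : Matrix X X ℝ, ∑ g : G, p' * M (σ g) * B * (M (ρ g⁻¹) * p) = 0 := by
    intro B
    set h := ∑ g : G, p' * M (σ g) * B * (M (ρ g⁻¹) * p) with hh
    have hint : Int' ρ σ h := by
      intro k
      rw [hh, Finset.sum_mul, Finset.mul_sum]
      rw [← Equiv.sum_comp (Equiv.mulLeft k)
        (fun g => p' * M (σ g) * B * (M (ρ g⁻¹) * p) * M (ρ k))]
      refine Finset.sum_congr rfl fun g _ => ?_
      have e1 : (Equiv.mulLeft k) g = k * g := rfl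
      rw [e1, _root_.mul_inv_rev, map_mul σ, M_mul, map_mul ρ, M_mul]
      have e2 : M (ρ k⁻¹) * M (ρ k) = 1 := by
        rw [← M_mul, ← map_mul, inv_mul_cancel, map_one, M_one]
      calc p' * (M (σ k) * M (σ g)) * B * (M (ρ g⁻¹) * M (ρ k⁻¹) * p) * M (ρ k)
          = (p' * M (σ k)) * M (σ g) * B * M (ρ g⁻¹) * M (ρ k⁻¹) * (p * M (ρ k)) := by
            simp only [mul_assoc]
        _ = (M (σ k) * p') * M (σ g) * B * M (ρ g⁻¹) * (M (ρ k⁻¹) * M (ρ k)) * p := by
            rw [hcp', hcp]
            simp only [mul_assoc]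
        _ = M (σ k) * (p' * M (σ g) * B * (M (ρ g⁻¹) * p)) := by
            rw [e2, mul_one]
            simp only [mul_assoc]
    have hfh : fᵀ * h = 0 := by
      rw [hh, Finset.mul_sum]
      refine Finset.sum_eq_zero fun g _ => ?_
      have : fᵀ * (p' * M (σ g) * B * (M (ρ g⁻¹) * p)) =
          (fᵀ * p') * (M (σ g) * B * (M (ρ g⁻¹) * p)) := by simp only [mul_assoc]
      rw [this, hfp', zero_mul]
    have hhp : h * p = h := by
      rw [hh, Finset.sum_mul]
      refine Finset.sum_congr rfl fun g _ => ?_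
      have : p' * M (σ g) * B * (M (ρ g⁻¹) * p) * p = p' * M (σ g) * B * (M (ρ g⁻¹) * (p * p)) := by
        simp only [mul_assoc]
      rw [this, hpp]
    have hint2 : Int' ρ σ (f + h) := by
      intro g
      rw [add_mul, mul_add, hf g, hint g]
    have hker : LinearMap.ker (f + h).mulVecLin ≤ LinearMap.ker f.mulVecLin := by
      intro v hv
      rw [LinearMap.mem_ker, Matrix.mulVecLin_apply, Matrix.add_mulVec] at hv
      rw [LinearMap.mem_ker, Matrix.mulVecLin_apply]
      have h1 : fᵀ *ᵥ (f *ᵥ v) = 0 := by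
        have h2 := congrArg (fun w => fᵀ *ᵥ w) hv
        rw [Matrix.mulVec_add, Matrix.mulVec_mulVec v fᵀ h, hfh, Matrix.zero_mulVec, add_zero,
          Matrix.mulVec_zero] at h2
        exact h2
      have h3 : (f *ᵥ v) ⬝ᵥ (f *ᵥ v) = 0 := by
        rw [Matrix.dotProduct_mulVec, ← Matrix.mulVec_transpose, h1, zero_dotProduct]
      exact dotProduct_self_eq_zero.1 h3
    have heq := Submodule.eq_of_le_of_finrank_le hker (hmin _ hint2)
    have hhp0 : h * p = 0 := by
      ext i j
      have h1 : (fun k => p k j) ∈ LinearMap.ker f.mulVecLin := by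
        rw [LinearMap.mem_ker, Matrix.mulVecLin_apply]
        ext i
        have := congrFun (congrFun hfp i) j
        rw [Matrix.mul_apply] at this
        exact this
      have h2 := h1
      rw [← heq, LinearMap.mem_ker, Matrix.mulVecLin_apply, Matrix.add_mulVec] at h2
      rw [LinearMap.mem_ker, Matrix.mulVecLin_apply] at h1
      rw [h1, zero_add] at h2
      have h3 := congrFun h2 i
      rw [Matrix.mul_apply]
      exact h3
    rw [← hhp, hhp0]
  -- the character of the kernel
  have hsum : ∑ g : G, (p * M (ρ g)).trace ^ 2 = 0 := by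
    have h1 : ∀ a b : X, ∑ g : G, (p' * M (σ g)) a a * (M (ρ g⁻¹) * p) b b = 0 := by
      intro a b
      have h2 := congrFun (congrFun (hB (EE a b)) a) b
      rw [Matrix.sum_apply] at h2
      simp only [entry] at h2
      exact h2
    have h3 : ∑ g : G, (p' * M (σ g)).trace * (M (ρ g⁻¹) * p).trace = 0 := by
      have h4 : ∑ g : G, (p' * M (σ g)).trace * (M (ρ g⁻¹) * p).trace =
          ∑ a : X, ∑ b : X, ∑ g : G, (p' * M (σ g)) a a * (M (ρ g⁻¹) * p) b b := by
        simp only [Matrix.trace, Matrix.diag, Finset.sum_mul_sum]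
        rw [Finset.sum_comm]
        refine Finset.sum_congr rfl fun a _ => ?_
        rw [Finset.sum_comm]
      rw [h4]
      exact Finset.sum_eq_zero fun a _ => Finset.sum_eq_zero fun b _ => h1 a b
    rw [← h3]
    refine Finset.sum_congr rfl fun g _ => ?_
    have h5 : (M (ρ g⁻¹) * p).trace = (p * M (ρ g)).trace := by
      rw [← Matrix.trace_transpose, Matrix.transpose_mul, hps, M_transpose, map_inv, inv_inv]
    rw [h5, ← trace_eq hc hf g q]
    ring
  have htr : p.trace = 0 := by
    have h1 := (Finset.sum_eq_zero_iff_of_nonneg fun g _ => sq_nonneg ((p * M (ρ g)).trace)).1 hsum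
      1 (Finset.mem_univ _)
    rw [map_one, M_one, mul_one] at h1
    exact pow_eq_zero_iff (two_ne_zero) |>.1 h1
  have hp0 : p = 0 := by
    have h1 : (pᵀ * p).trace = 0 := by rw [hps, hpp, htr]
    have h2 := Matrix.trace_conjTranspose_mul_self_eq_zero_iff (A := p)
    rw [Matrix.conjTranspose_eq_transpose_of_trivial] at h2
    exact h2.1 h1
  refine ⟨f, ?_, hf⟩
  intro hdet
  obtain ⟨v, hv0, hv⟩ := Matrix.exists_mulVec_eq_zero_iff.2 hdet
  have h1 : (fᵀ * f) *ᵥ v = 0 := by
    rw [← Matrix.mulVec_mulVec, hv, Matrix.mulVec_zero]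
  have h2 := aeval_mulVec_of_zero h1 q
  rw [hq0, one_smul, ← hp, hp0, Matrix.zero_mulVec] at h2
  exact hv0 h2.symm

end main

/-- **REAL** -/
theorem t_REAL : S_REAL := by
  intro G X _ _ _ _ ρ σ hc
  obtain ⟨f, hdet, hf⟩ := main hc
  refine ⟨f, hdet, fun g x y => ?_⟩
  have h1 := mul_M f (ρ g) (σ g x) y
  have h2 := M_mul_apply f (σ g) x y
  rw [hf g] at h1
  exact h1.symm.trans h2

end Pool.Agent.Y182.WJ
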